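import Mathlib

namespace Pool.Agent.Results.MP_dd6e79_al.NoOsc
open Filter

/-- elements of `S` that are products of at most `n` (and at least one) elements of `X` -/
def ball {S : Type} [Semigroup S] (X : Finset S) (n : ℕ) : Set S :=
  {s | ∃ w : FreeSemigroup X, w.length ≤ n ∧ FreeSemigroup.lift (fun x : X => (x : S)) w = s}

/-- the relation `f ⪯ g` -/
def prec (f g : ℕ → ℕ) : Prop := ∃ C : ℕ, 1 ≤ C ∧ ∀ n, 1 ≤ n → f n ≤ C * g (C * n)

section
variable {S : Type} [Semigroup S] (X : Finset S)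

lemma len_pos {α : Type} (w : FreeSemigroup α) : 1 ≤ w.length := by
  unfold FreeSemigroup.length; omega

lemma ball_split (m n : ℕ) :
    ball X (m + n) ⊆ ball X m ∪ ball X n ∪ Set.image2 (· * ·) (ball X m) (ball X n) := by
  rintro _ ⟨w, hw, rfl⟩
  induction w using FreeSemigroup.recOnMul generalizing m with
  | ih1 x =>
    rcases m with _ | m
    · exact Or.inl (Or.inr ⟨_, by simpa using hw, rfl⟩)
    · exact Or.inl (Or.inl ⟨_, by simp, rfl⟩)
  | ih2 x w _ ih =>
    rcases m with _ | m
    · exact Or.inl (Or.inr ⟨_, by simpa using hw, rfl⟩)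
    · have hw' : w.length ≤ m + n := by simp at hw; omega
      rcases ih m hw' with (⟨u, hu, e⟩ | h) | ⟨_, ⟨u, hu, rfl⟩, b, hb, e⟩
      · exact Or.inl (Or.inl ⟨.of x * u, by simp; omega, by rw [map_mul, map_mul, e]⟩)
      · exact Or.inr ⟨_, ⟨.of x, by simp, rfl⟩, _, h, by rw [map_mul]⟩
      · refine Or.inr ⟨_, ⟨.of x * u, by simp; omega, rfl⟩, b, hb, ?_⟩
        simp only [map_mul] at e ⊢
        rw [← e, mul_assoc]

lemma ball_finite (n : ℕ) : (ball X n).Finite := by
  have h1 : (ball X 1).Finite := by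
    refine X.finite_toSet.subset ?_
    rintro _ ⟨w, hw, rfl⟩
    induction w using FreeSemigroup.recOnMul with
    | ih1 x => simp
    | ih2 x w _ _ => have := len_pos w; simp at hw; omega
  induction n with
  | zero =>
    refine Set.finite_empty.subset ?_
    rintro _ ⟨w, hw, rfl⟩
    have := len_pos w; omega
  | succ n ih => exact ((ih.union h1).union (ih.image2 _ h1)).subset (ball_split X n 1)

lemma ball_mono : Monotone fun n => (ball X n).ncard := fun _ n h =>
  Set.ncard_le_ncard (fun _ ⟨w, hw, e⟩ => ⟨w, hw.trans h, e⟩) (ball_finite X n)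

lemma ball_submul (m n : ℕ) :
    (ball X (m + n)).ncard + 1 ≤ ((ball X m).ncard + 1) * ((ball X n).ncard + 1) := by
  have a := ball_finite X m
  have b := ball_finite X n
  have h1 := Set.ncard_le_ncard (ball_split X m n) ((a.union b).union (a.image2 _ b))
  have h2 := Set.ncard_union_le (ball X m ∪ ball X n) (Set.image2 (· * ·) (ball X m) (ball X n))
  have h3 := Set.ncard_union_le (ball X m) (ball X n)
  have h4 : (Set.image2 (· * ·) (ball X m) (ball X n)).ncard
      ≤ (ball X m).ncard * (ball X n).ncard := by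
    rw [← Set.image_uncurry_prod, ← Set.ncard_prod]
    exact Set.ncard_image_le (a.prod b)
  nlinarith

lemma ball_pow (m q : ℕ) : (ball X ((q + 1) * m)).ncard + 1 ≤ ((ball X m).ncard + 1) ^ (q + 1) := by
  induction q with
  | zero => simp
  | succ q ih =>
    rw [add_mul (q + 1), one_mul, pow_succ]
    exact (ball_submul X _ _).trans (Nat.mul_le_mul_right _ ih)
end

lemma poly_lt (k : ℕ) : ∀ᶠ n : ℕ in atTop, n ^ k < 2 ^ n := by
  have h := tendsto_pow_const_div_const_pow_of_one_lt k (r := 2) (by norm_num)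
  filter_upwards [h.eventually (gt_mem_nhds one_pos)] with n hn
  rw [div_lt_one (by positivity)] at hn
  exact_mod_cast hn

def SubExp (h : ℕ → ℕ) : Prop := ∀ j, ∀ᶠ n in atTop, h n ^ j ≤ 2 ^ n

lemma dich {S : Type} [Semigroup S] (X : Finset S) (h : ¬ SubExp fun n => (ball X n).ncard) :
    ∀ᶠ n in atTop, n ^ 3 ≤ (ball X n).ncard := by
  simp only [SubExp, not_forall, not_eventually, not_le] at h
  obtain ⟨j, hj⟩ := h
  filter_upwards [poly_lt (6 * j), eventually_ge_atTop 1] with m hm hm1
  obtain ⟨n, hn1, hn2⟩ := (hj.and_eventually (eventually_ge_atTop m)).exists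
  set q := n / m with hq
  have hq1 : 1 ≤ q := (Nat.one_le_div_iff hm1).2 hn2
  have h1 : n ≤ (q + 1) * m := by
    have := Nat.lt_div_mul_add (a := n) hm1; rw [add_mul, one_mul]; exact this.le
  have h2 : (ball X n).ncard ≤ ((ball X m).ncard + 1) ^ (q + 1) := by
    have := ball_mono X h1
    have := ball_pow X m q
    simp only at *; omega
  by_contra hc
  have h3 : (ball X m).ncard + 1 ≤ m ^ 3 := by omega
  have h4 : (ball X n).ncard ^ j ≤ (m ^ (6 * j)) ^ q := by
    calc (ball X n).ncard ^ j ≤ ((m ^ 3) ^ (q + 1)) ^ j :=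
          Nat.pow_le_pow_left (h2.trans (Nat.pow_le_pow_left h3 _)) _
      _ = m ^ (3 * (q + 1) * j) := by rw [← pow_mul, ← pow_mul, mul_assoc]
      _ ≤ m ^ (6 * j * q) := Nat.pow_le_pow_right hm1 (by nlinarith)
      _ = _ := by rw [← pow_mul]
  have h5 : (m ^ (6 * j)) ^ q ≤ 2 ^ n := by
    calc (m ^ (6 * j)) ^ q ≤ (2 ^ m) ^ q := Nat.pow_le_pow_left hm.le _
      _ = 2 ^ (m * q) := by rw [← pow_mul]
      _ ≤ 2 ^ n := Nat.pow_le_pow_right (by norm_num) (Nat.mul_div_le n m)
  omega

lemma diag (h : ℕ → ℕ → ℕ) (hm : ∀ i, Monotone (h i)) (hs : ∀ i, SubExp (h i)) :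
    ∃ e : ℕ → ℕ, Monotone e ∧ SubExp e ∧ (∀ n, e n ≤ 2 ^ n) ∧ ∀ i, ∀ᶠ n in atTop, h i n ≤ e n := by
  classical
  have : ∀ j, ∃ N, ∀ n ≥ N, ∀ i ∈ Finset.range (j + 1), h i n ^ (j + 1) ≤ 2 ^ n := fun j =>
    eventually_atTop.1 ((eventually_all_finset _).2 fun i _ => hs i (j + 1))
  choose N hN using this
  let A : ℕ → Finset ℕ := fun n => (Finset.range (n + 1)).filter (fun i => N i ≤ n)
  have key : ∀ n j, (j = 0 ∨ j ∈ A n) → ((A n).sup fun i => h i n) ^ (j + 1) ≤ 2 ^ n := by
    intro n j hj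
    rcases (A n).eq_empty_or_nonempty with he | he
    · simp [he]
    obtain ⟨i, hi, e⟩ := Finset.exists_mem_eq_sup _ he (fun i => h i n)
    rw [e]
    rcases le_total i j with hij | hij
    · rcases hj with rfl | hj
      · obtain rfl : i = 0 := by omega
        exact hN 0 n (Finset.mem_filter.1 hi).2 0 (by simp)
      · exact hN j n (Finset.mem_filter.1 hj).2 i (by simp; omega)
    · have := hN i n (Finset.mem_filter.1 hi).2 i (by simp)
      rcases Nat.eq_zero_or_pos (h i n) with h0 | h0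
      · simp [h0]
      · exact (Nat.pow_le_pow_right h0 (by omega)).trans this
  have hA : ∀ i, ∀ᶠ n in atTop, i ∈ A n := fun i => by
    filter_upwards [eventually_ge_atTop i, eventually_ge_atTop (N i)] with n h1 h2
    exact Finset.mem_filter.2 ⟨by simp; omega, h2⟩
  refine ⟨fun n => (A n).sup fun i => h i n, ?_, ?_, ?_, ?_⟩
  · intro a b hab
    refine Finset.sup_le fun i hi => (hm i hab).trans (Finset.le_sup (f := fun i => h i b) ?_)
    simp only [A, Finset.mem_filter, Finset.mem_range] at hi ⊢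
    omega
  · intro j
    rcases j with _ | j
    · exact Eventually.of_forall fun n => by simpa using Nat.one_le_two_pow
    · exact (hA j).mono fun n hn => key n j (Or.inr hn)
  · intro n; simpa using key n 0 (Or.inl rfl)
  · intro i
    exact (hA i).mono fun n hn => Finset.le_sup (f := fun i => h i n) hn

theorem result : ∃ f₁ f₂ : ℕ → ℕ, StrictMono f₁ ∧ StrictMono f₂ ∧
    prec (fun n => n ^ 2) f₁ ∧ prec f₂ (fun n => 2 ^ n) ∧
    ¬ (prec f₁ (fun n => n ^ 2) ∧ prec (fun n => n ^ 2) f₁) ∧
    ¬ (prec f₂ (fun n => 2 ^ n) ∧ prec (fun n => 2 ^ n) f₂) ∧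
    ∀ (k : ℕ) (R : Finset (FreeSemigroup (Fin k) × FreeSemigroup (Fin k)))
      (X : Finset (conGen fun u v => (u, v) ∈ R).Quotient),
      Subsemigroup.closure (X : Set (conGen fun u v => (u, v) ∈ R).Quotient) = ⊤ →
      (∀ᶠ n in atTop, f₁ n ≤ (ball X n).ncard) ∨ (∀ᶠ n in atTop, (ball X n).ncard ≤ f₂ n) := by
  classical
  have c1 : ∀ k, Countable (FreeSemigroup (Fin k)) := fun k =>
    Function.Injective.countable (f := fun w : FreeSemigroup (Fin k) => (w.head, w.tail))
      (fun _ _ h => FreeSemigroup.ext (congrArg Prod.fst h) (congrArg Prod.snd h))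
  have c2 : ∀ k (c : Con (FreeSemigroup (Fin k))), Countable c.Quotient := fun k c =>
    inferInstanceAs (Countable (Quotient c.toSetoid))
  let I := Σ (k : ℕ) (R : Finset (FreeSemigroup (Fin k) × FreeSemigroup (Fin k))),
    Finset (conGen fun u v => (u, v) ∈ R).Quotient
  have : Nonempty I := ⟨⟨0, ∅, ∅⟩⟩
  obtain ⟨σ, hσ⟩ := exists_surjective_nat I
  let g : I → ℕ → ℕ := fun p n => (ball p.2.2 n).ncard
  obtain ⟨e, e1, e2, e3, e4⟩ := diag (fun i => if SubExp (g (σ i)) then g (σ i) else fun _ => 0)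
    (fun i => by
      split_ifs
      · exact ball_mono _
      · exact monotone_const)
    (fun i => by
      split_ifs with h
      · exact h
      · intro j
        refine Eventually.of_forall fun n => ?_
        rcases j with _ | j
        · simpa using Nat.one_le_two_pow
        · simp)
  refine ⟨fun n => n ^ 3, fun n => n + e n, fun a b h => Nat.pow_lt_pow_left h (by norm_num),
    fun a b h => by have := e1 h.le; simp only; omega, ⟨1, le_refl _, fun n hn => ?_⟩,
    ⟨2, by norm_num, fun n hn => ?_⟩, ?_, ?_, ?_⟩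
  · simpa using Nat.pow_le_pow_right hn (by norm_num : 2 ≤ 3)
  · have h1 := e3 n
    have h2 : n < 2 ^ n := Nat.lt_two_pow_self
    have h3 : 2 ^ n ≤ 2 ^ (2 * n) := Nat.pow_le_pow_right (by norm_num) (by omega)
    simp only; omega
  · rintro ⟨⟨C, hC, h⟩, -⟩
    have := h (C ^ 3 + 1) (by omega)
    simp only at this
    have h2 : 0 < (C ^ 3 + 1) ^ 2 := by positivity
    nlinarith
  · rintro ⟨-, C, hC, h⟩
    have t : Tendsto (fun n => C * n) atTop atTop :=
      tendsto_atTop_mono (fun n => Nat.le_mul_of_pos_left n hC) tendsto_id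
    obtain ⟨n, h1, h2, h3⟩ := ((t.eventually (e2 (3 * C))).and ((poly_lt 6).and
      (eventually_ge_atTop (2 * C ^ 2 + 1)))).exists
    have h4 : e (C * n) ^ 3 ≤ 2 ^ n := by
      rw [pow_mul, mul_comm C n, pow_mul] at h1
      rw [mul_comm C n]
      exact (Nat.pow_le_pow_iff_left (by omega)).1 h1
    have h5 := h n (by omega)
    simp only at h5
    set E := e (C * n)
    have hn : 1 ≤ n := by omega
    have hCn : C * C ≤ n := by nlinarith
    have hC2 : 2 * C ≤ n := by nlinarith
    rcases le_total E (C * n) with h6 | h6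
    · have : 2 ^ n ≤ n ^ 6 := by
        calc 2 ^ n ≤ C * (C * n + C * n) := h5.trans (by gcongr)
          _ = 2 * C ^ 2 * n := by ring
          _ ≤ n * n := by gcongr; omega
          _ = n ^ 2 := by ring
          _ ≤ n ^ 6 := Nat.pow_le_pow_right hn (by norm_num)
      omega
    · have h7 : 2 ^ n ≤ n * E := by
        calc 2 ^ n ≤ C * (E + E) := h5.trans (by gcongr)
          _ = 2 * C * E := by ring
          _ ≤ n * E := by gcongr
      have h8 : n ≤ E := le_trans (Nat.le_mul_of_pos_left n hC) h6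
      have h9 : E ^ 3 ≤ E * E := h4.trans (h7.trans (by gcongr))
      have : 2 ≤ E := by nlinarith
      nlinarith
  · intro k R X _
    obtain ⟨i, hi⟩ := hσ ⟨k, R, X⟩
    by_cases hs : SubExp (g (σ i))
    · right
      filter_upwards [e4 i] with n hn
      simp only [hs, if_true] at hn
      rw [hi] at hn
      exact le_trans hn (Nat.le_add_left _ _)
    · left
      rw [hi] at hs
      exact dich X hs

end Pool.Agent.Results.MP_dd6e79_al.NoOsc
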